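import Pool.Agent.H484.AL.Stm

/-!
# Cyclic boxes versus ordinary boxes (task ARC)
-/

namespace Pool.Agent.H484.AL

open Finset
open scoped Classical

namespace ARC

/-- left end points of the two intervals -/
def lo (x : ℕ) (b : Bool) : ℕ := if b = true then 0 else x

/-- right end points of the two intervals -/
def hi (N x m : ℕ) (b : Bool) : ℕ := if b = true then x + m - N else min (x + m) N

lemma mod_iff {N x m : ℕ} (hx : x < N) (hm : m ≤ N) (k : ℕ) :
    (k + (N - x)) % N < m ↔ (x ≤ k % N ∧ k % N < min (x + m) N) ∨ k % N < x + m - N := by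
  have hr : k % N < N := Nat.mod_lt _ (by omega)
  have h1 : (k + (N - x)) % N = (k % N + (N - x)) % N := (Nat.mod_add_mod k N (N - x)).symm
  by_cases h : x ≤ k % N
  · have h2 : (k % N + (N - x)) % N = k % N - x := by
      have h3 : k % N + (N - x) = (k % N - x) + N := by omega
      rw [h3, Nat.add_mod_right, Nat.mod_eq_of_lt (by omega)]
    rw [h1, h2]
    omega
  · have h2 : (k % N + (N - x)) % N = k % N + (N - x) := Nat.mod_eq_of_lt (by omega)
    rw [h1, h2]
    omega

lemma ind {N x m : ℕ} (hx : x < N) (hm : m ≤ N) (k : ℕ) :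
    (if (k + (N - x)) % N < m then (1 : ℝ) else 0) =
      ∑ b : Bool, if lo x b ≤ k % N ∧ k % N < hi N x m b then (1 : ℝ) else 0 := by
  rw [Fintype.sum_bool]
  have e1 : lo x true = 0 := rfl
  have e2 : lo x false = x := rfl
  have e3 : hi N x m true = x + m - N := rfl
  have e4 : hi N x m false = min (x + m) N := rfl
  rw [e1, e2, e3, e4]
  by_cases h1 : k % N < x + m - N
  · have h2 : ¬ (x ≤ k % N ∧ k % N < min (x + m) N) := by omega
    rw [if_pos ((mod_iff hx hm k).2 (Or.inr h1)), if_pos ⟨Nat.zero_le _, h1⟩, if_neg h2, add_zero]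
  · by_cases h2 : x ≤ k % N ∧ k % N < min (x + m) N
    · rw [if_pos ((mod_iff hx hm k).2 (Or.inl h2)), if_neg (fun h => h1 h.2), if_pos h2, zero_add]
    · rw [if_neg (fun h => ((mod_iff hx hm k).1 h).elim h2 h1), if_neg (fun h => h1 h.2),
        if_neg h2, add_zero]

lemma len {N x m : ℕ} (hx : x < N) (hm : m ≤ N) :
    (m : ℝ) / (N : ℝ) = ∑ b : Bool, ((hi N x m b : ℝ) / (N : ℝ) - (lo x b : ℝ) / (N : ℝ)) := by
  rw [Fintype.sum_bool]
  have e1 : lo x true = 0 := rfl
  have e2 : lo x false = x := rfl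
  have e3 : hi N x m true = x + m - N := rfl
  have e4 : hi N x m false = min (x + m) N := rfl
  rw [e1, e2, e3, e4]
  have h1 : m + x = (x + m - N) + min (x + m) N := by omega
  have h2 : (m : ℝ) + x = ((x + m - N : ℕ) : ℝ) + ((min (x + m) N : ℕ) : ℝ) := by
    exact_mod_cast h1
  have h3 : (m : ℝ) = ((x + m - N : ℕ) : ℝ) + ((min (x + m) N : ℕ) : ℝ) - x := by linarith
  rw [h3]
  push_cast
  ring

lemma lo_le {N x m : ℕ} (hx : x < N) (b : Bool) : lo x b ≤ hi N x m b := by
  cases b
  · show x ≤ min (x + m) N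
    omega
  · exact Nat.zero_le _

lemma hi_le {N x m : ℕ} (hx : x < N) (hm : m ≤ N) (b : Bool) : hi N x m b ≤ N := by
  cases b
  · show min (x + m) N ≤ N
    omega
  · show x + m - N ≤ N
    omega

end ARC

theorem t_ARC (hDISC : S_DISC) : S_ARC := by
  intro d N a x m hN hx hm
  have hN0 : (0 : ℝ) < (N : ℝ) := by exact_mod_cast hN
  have hN1 : (N : ℝ) ≠ 0 := hN0.ne'
  -- the boxes
  set u : (Fin d → Bool) → Fin d → ℝ := fun s i => (ARC.lo (x i) (s i) : ℝ) / (N : ℝ) with hu
  set v : (Fin d → Bool) → Fin d → ℝ := fun s i => (ARC.hi N (x i) (m i) (s i) : ℝ) / (N : ℝ)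
    with hv
  set B : (Fin d → Bool) → ℝ := fun s => (((range N).filter (fun n : ℕ => ∀ i,
    u s i ≤ Int.fract (((n * a i : ℕ) : ℝ) / (N : ℝ)) ∧
      Int.fract (((n * a i : ℕ) : ℝ) / (N : ℝ)) < v s i)).card : ℝ) with hB
  have hbox : ∀ s, |B s / (N : ℝ) - ∏ i, (v s i - u s i)| ≤ Disc d N a := by
    intro s
    refine (hDISC d N a hN).1 (u s) (v s) fun i => ⟨by positivity, ?_, ?_⟩
    · exact div_le_div_of_nonneg_right (by exact_mod_cast ARC.lo_le (hx i) (s i)) hN0.le
    · rw [hv]
      show (ARC.hi N (x i) (m i) (s i) : ℝ) / (N : ℝ) ≤ 1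
      rw [div_le_one hN0]
      exact_mod_cast ARC.hi_le (hx i) (hm i) (s i)
  have hcnt : (cnt d N a x m : ℝ) = ∑ s, B s := by
    have e1 : (cnt d N a x m : ℝ) = ∑ n ∈ range N, ∏ i,
        (if (n * a i + (N - x i)) % N < m i then (1 : ℝ) else 0) := by
      unfold cnt
      rw [Finset.card_filter]
      push_cast
      refine Finset.sum_congr rfl fun n _ => ?_
      rw [Finset.prod_ite_zero]
      simp
    have e2 : ∀ s, B s = ∑ n ∈ range N, ∏ i, (if ARC.lo (x i) (s i) ≤ n * a i % N ∧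
        n * a i % N < ARC.hi N (x i) (m i) (s i) then (1 : ℝ) else 0) := by
      intro s
      rw [hB]
      simp only
      rw [Finset.card_filter]
      push_cast
      refine Finset.sum_congr rfl fun n _ => ?_
      rw [Finset.prod_ite_zero]
      have e3 : ∀ i, (u s i ≤ Int.fract (((n : ℝ) * (a i : ℝ)) / (N : ℝ)) ∧
          Int.fract (((n : ℝ) * (a i : ℝ)) / (N : ℝ)) < v s i) ↔
          (ARC.lo (x i) (s i) ≤ n * a i % N ∧ n * a i % N < ARC.hi N (x i) (m i) (s i)) := by
        intro i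
        have e4 : Int.fract (((n : ℝ) * (a i : ℝ)) / (N : ℝ)) = ((n * a i % N : ℕ) : ℝ) / N := by
          rw [← Int.fract_div_natCast_eq_div_natCast_mod]
          push_cast
          rfl
        rw [e4, hu, hv]
        simp only
        rw [div_le_div_iff_of_pos_right hN0, div_lt_div_iff_of_pos_right hN0, Nat.cast_le,
          Nat.cast_lt]
      simp only [e3]
      simp
    rw [e1, Finset.sum_congr rfl fun s _ => e2 s, Finset.sum_comm]
    refine Finset.sum_congr rfl fun n _ => ?_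
    rw [Finset.prod_congr rfl fun i _ => ARC.ind (hx i) (hm i) (n * a i)]
    rw [Finset.prod_univ_sum, Fintype.piFinset_univ]
  have hprod : ∏ i, ((m i : ℝ) / (N : ℝ)) = ∑ s, ∏ i, (v s i - u s i) := by
    rw [Finset.prod_congr rfl fun i _ => ARC.len (hx i) (hm i)]
    rw [Finset.prod_univ_sum, Fintype.piFinset_univ]
  have hGG : GG d N a x m = ∑ s, (N : ℝ) * (B s / (N : ℝ) - ∏ i, (v s i - u s i)) := by
    unfold GG
    rw [hcnt, hprod, Finset.mul_sum, ← Finset.sum_sub_distrib]
    refine Finset.sum_congr rfl fun s _ => ?_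
    rw [mul_sub, mul_div_cancel₀ _ hN1]
  rw [hGG]
  refine (Finset.abs_sum_le_sum_abs _ _).trans ?_
  refine (Finset.sum_le_sum (g := fun _ => (N : ℝ) * Disc d N a) fun s _ => ?_).trans ?_
  · rw [abs_mul, abs_of_pos hN0]
    exact mul_le_mul_of_nonneg_left (hbox s) hN0.le
  · rw [Finset.sum_const, Finset.card_univ, Fintype.card_fun, Fintype.card_bool, Fintype.card_fin,
      nsmul_eq_mul]
    push_cast
    exact le_rfl

end Pool.Agent.H484.AL
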