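import Pool.Agent.H484.AL.Stm

/-!
# Parallel pairs inside one cell (task PARC)
-/

namespace Pool.Agent.H484.AL

open Finset
open scoped Classical

namespace PARC

/-- the reduced vectors for the multiplier `m` -/
noncomputable def Nset (e g B J : ℕ) (α j : Fin e → ℕ) (m : ℕ) : Finset (Fin e → ℕ) :=
  (Fintype.piFinset (fun _ : Fin e => Ico 1 (2 * B ^ (5 * J)))).filter (fun l =>
      (∀ i, B ^ (j i) ≤ m * l i ∧ m * l i < 2 * B ^ (j i)) ∧ g ∣ ∑ i, α i * l i)

lemma dvd_red {e g M a0 k : ℕ} {α b l : Fin e → ℕ}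
    (h : g * M ∣ g * a0 * k + ∑ i, (α i + g * b i) * l i) : g ∣ ∑ i, α i * l i := by
  have h1 : g ∣ g * a0 * k + ∑ i, (α i + g * b i) * l i := (Dvd.intro _ rfl).trans h
  have h2 : g * a0 * k + ∑ i, (α i + g * b i) * l i =
      g * (a0 * k + ∑ i, b i * l i) + ∑ i, α i * l i := by
    rw [mul_add, Finset.mul_sum, add_assoc, ← Finset.sum_add_distrib]
    congr 1
    · ring
    · exact Finset.sum_congr rfl fun i _ => by ring
  rw [h2] at h1
  exact (Nat.dvd_add_right (Dvd.intro _ rfl)).1 h1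

end PARC

theorem t_PARC (hPARSTR : S_PARSTR) (hKAP : S_KAP) (hSINGLE : S_SINGLE) (hNSUM : S_NSUM) :
    S_PARC := by
  intro e B g M a0 J α hR t j ht hj
  obtain ⟨k1, -, k3, k4⟩ := hKAP e B g M a0 J α hR t j ht hj
  have hN := hNSUM e B g M a0 J α hR j hj
  set κ : ℕ := kap e (g * M) B t j with hκ
  have he := hR.he
  have hB := hR.hB
  have hJ := hR.hJ
  have hg := hR.hg
  have hM : 1 ≤ M := by omega
  have hB0 : 0 < B := by omega
  have hjm : ∀ i, 3 * J ≤ j i ∧ j i < 5 * J := by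
    intro i
    have := Fintype.mem_piFinset.1 hj i
    rwa [Finset.mem_Ico] at this
  have hX : ∀ i, B ^ (j i) ≤ B ^ (5 * J) := fun i => Nat.pow_le_pow_right hB0 (hjm i).2.le
  have hX1 : ∀ i, 1 ≤ B ^ (j i) := fun i => Nat.one_le_pow _ _ hB0
  -- `κ` is large
  have hκ1 : 64 * B ^ (5 * J) ≤ κ := by
    refine le_trans ?_ k3
    calc 64 * B ^ (5 * J) ≤ B * B ^ (5 * J) := Nat.mul_le_mul_right _ hB
      _ = B ^ (5 * J + 1) := by ring
      _ ≤ B ^ (34 * e * J) := Nat.pow_le_pow_right hB0 (by nlinarith)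
  let i0 : Fin e := ⟨0, by omega⟩
  have key : ∀ b : Fin e → Fin M, ((Lset e g B α j ×ˢ Lset e g B α j).filter (fun z =>
      z.1 ≠ z.2 ∧ Par e z.1 z.2 ∧ EvC e g M a0 B α (fun i => (b i : ℕ)) t j z.1 ∧
      EvC e g M a0 B α (fun i => (b i : ℕ)) t j z.2)).card ≤
      ∑ m ∈ Ico 2 (2 * B ^ (5 * J)), 2 * m * ((PARC.Nset e g B J α j m).filter
        (fun l => Ev e g M a0 α (fun i => (b i : ℕ)) l (κ / m) (2 * κ / m - κ / m))).card := by
    intro b
    have hsub : ((Lset e g B α j ×ˢ Lset e g B α j).filter (fun z =>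
      z.1 ≠ z.2 ∧ Par e z.1 z.2 ∧ EvC e g M a0 B α (fun i => (b i : ℕ)) t j z.1 ∧
      EvC e g M a0 B α (fun i => (b i : ℕ)) t j z.2)) ⊆
      (Ico 2 (2 * B ^ (5 * J))).biUnion (fun m => ((range (2 * m)) ×ˢ
        ((PARC.Nset e g B J α j m).filter
        (fun l => Ev e g M a0 α (fun i => (b i : ℕ)) l (κ / m) (2 * κ / m - κ / m)))).image
        (fun z => ((fun i => m * z.2 i : Fin e → ℕ), (fun i => z.1 * z.2 i : Fin e → ℕ)))) := by
      rintro ⟨l, l'⟩ hz
      rw [Finset.mem_filter, Finset.mem_product] at hz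
      obtain ⟨⟨hl, hl'⟩, hne, hpar, ⟨k, hk1, hk2, hk3⟩, ⟨k', hk1', hk2', hk3'⟩⟩ := hz
      simp only at hl hl' hne hpar hk3 hk3'
      unfold Lset at hl hl'
      rw [Finset.mem_filter, Fintype.mem_piFinset] at hl hl'
      have hlm : ∀ i, B ^ (j i) ≤ l i ∧ l i < 2 * B ^ (j i) := fun i => Finset.mem_Ico.1 (hl.1 i)
      have hlm' : ∀ i, B ^ (j i) ≤ l' i ∧ l' i < 2 * B ^ (j i) := fun i =>
        Finset.mem_Ico.1 (hl'.1 i)
      have hbd : ∀ (y : Fin e → ℕ) (n : ℕ), (∀ i, y i < 2 * B ^ (j i)) → n ≤ κ + κ →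
          ∀ i, y i * n < M := by
        intro y n hy hn i
        calc y i * n ≤ (2 * B ^ (5 * J)) * (κ + κ) :=
              Nat.mul_le_mul ((hy i).le.trans (Nat.mul_le_mul_left 2 (hX i))) hn
          _ = 4 * B ^ (5 * J) * κ := by ring
          _ < M := k4
      obtain ⟨m, m', k'', l'', hm, hm', hcop, hkk, hkk', hll, hll', hdual⟩ :=
        hPARSTR e g M a0 k k' α (fun i => (b i : ℕ)) l l' (by omega) hg hR.ha
          (fun i => (hX1 i).trans (hlm i).1) (fun i => (hX1 i).trans (hlm' i).1)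
          (by omega) (by omega) hpar hk3 hk3'
          (hbd l' k (fun i => (hlm' i).2) hk2) (hbd l k' (fun i => (hlm i).2) hk2')
      have hl1 : ∀ i, 1 ≤ l'' i := by
        intro i
        rcases Nat.eq_zero_or_pos (l'' i) with h0 | h0
        · have h1 := (hX1 i).trans (hlm i).1
          rw [hll i, h0, mul_zero] at h1
          omega
        · exact h0
      have hmm : m ≠ m' := by
        rintro rfl
        exact hne (funext fun i => by rw [hll i, hll' i])
      have h1 : m < 2 * m' := by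
        have a1 := (hlm i0).2
        have a2 := (hlm' i0).1
        rw [hll i0] at a1
        rw [hll' i0] at a2
        have a3 := hl1 i0
        by_contra hc
        push Not at hc
        have a4 : 2 * m' * l'' i0 ≤ m * l'' i0 := Nat.mul_le_mul_right _ hc
        nlinarith
      have h2 : m' < 2 * m := by
        have a1 := (hlm' i0).2
        have a2 := (hlm i0).1
        rw [hll' i0] at a1
        rw [hll i0] at a2
        have a3 := hl1 i0
        by_contra hc
        push Not at hc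
        have a4 : 2 * m * l'' i0 ≤ m' * l'' i0 := Nat.mul_le_mul_right _ hc
        nlinarith
      have h3 : 2 ≤ m := by omega
      have hll0 : ∀ i, m * l'' i < 2 * B ^ (5 * J) := by
        intro i
        have a1 := (hlm i).2
        rw [hll i] at a1
        exact a1.trans_le (Nat.mul_le_mul_left 2 (hX i))
      have h4 : m < 2 * B ^ (5 * J) := by
        have a3 := hl1 i0
        have a4 := hll0 i0
        have a5 : m * 1 ≤ m * l'' i0 := Nat.mul_le_mul_left m a3
        omega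
      have h5 : ∀ i, l'' i < 2 * B ^ (5 * J) := by
        intro i
        have a4 := hll0 i
        have a5 : 1 * l'' i ≤ m * l'' i := Nat.mul_le_mul_right _ hm
        omega
      have hm0 : 0 < m := hm
      rw [Finset.mem_biUnion]
      refine ⟨m, Finset.mem_Ico.2 ⟨h3, h4⟩, ?_⟩
      rw [Finset.mem_image]
      refine ⟨(m', l''), ?_, ?_⟩
      · rw [Finset.mem_product, Finset.mem_range, Finset.mem_filter]
        refine ⟨h2, ?_, ?_⟩
        · unfold PARC.Nset
          rw [Finset.mem_filter, Fintype.mem_piFinset]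
          refine ⟨fun i => Finset.mem_Ico.2 ⟨hl1 i, h5 i⟩, fun i => ?_, PARC.dvd_red hdual⟩
          rw [← hll i]
          exact hlm i
        · refine ⟨k'', ?_, ?_, hdual⟩
          · rw [Nat.div_lt_iff_lt_mul hm0, mul_comm, ← hkk]
            exact hk1
          · have a1 : κ / m ≤ 2 * κ / m := Nat.div_le_div_right (by omega)
            have a2 : κ / m + (2 * κ / m - κ / m) = 2 * κ / m := by omega
            rw [a2, Nat.le_div_iff_mul_le hm0, mul_comm, ← hkk]
            omega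
      · exact Prod.ext (funext fun i => (hll i).symm) (funext fun i => (hll' i).symm)
    refine (Finset.card_le_card hsub).trans (Finset.card_biUnion_le.trans ?_)
    refine Finset.sum_le_sum fun m _ => ?_
    refine Finset.card_image_le.trans (le_of_eq ?_)
    rw [Finset.card_product, Finset.card_range]
  have hexch : ∀ m, ∑ b : Fin e → Fin M, ((PARC.Nset e g B J α j m).filter
        (fun l => Ev e g M a0 α (fun i => (b i : ℕ)) l (κ / m) (2 * κ / m - κ / m))).card =
      ∑ l ∈ PARC.Nset e g B J α j m, (univ.filter (fun b : Fin e → Fin M =>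
        Ev e g M a0 α (fun i => (b i : ℕ)) l (κ / m) (2 * κ / m - κ / m))).card := by
    intro m
    simp only [Finset.card_filter]
    exact Finset.sum_comm
  have hone : ∀ m ∈ Ico 2 (2 * B ^ (5 * J)), ∀ l ∈ PARC.Nset e g B J α j m,
      2 * m * (univ.filter (fun b : Fin e → Fin M =>
        Ev e g M a0 α (fun i => (b i : ℕ)) l (κ / m) (2 * κ / m - κ / m))).card ≤
      4 * κ * M ^ (e - 1) := by
    intro m hm l hl
    rw [Finset.mem_Ico] at hm
    unfold PARC.Nset at hl
    rw [Finset.mem_filter, Fintype.mem_piFinset] at hl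
    obtain ⟨hl1, hl2, hl3⟩ := hl
    have hm0 : 0 < m := by omega
    have a1 : κ / m ≤ 2 * κ / m := Nat.div_le_div_right (by omega)
    have a2 : 2 * κ / m ≤ 2 * κ := Nat.div_le_self _ _
    have a3 : 2 * κ < M := by
      refine lt_of_le_of_lt ?_ k4
      have : 1 ≤ B ^ (5 * J) := Nat.one_le_pow _ _ hB0
      nlinarith
    have h1 := (hSINGLE e g M a0 α l (κ / m) (2 * κ / m - κ / m) i0 hg hM hR.ha
      (((Nat.sub_le _ _).trans a2).trans a3.le) (Finset.mem_Ico.1 (hl1 i0)).1 hl3).1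
    have h2 : m * ((2 * κ / m - κ / m) + l i0) ≤ 2 * κ := by
      have b1 : m * (2 * κ / m) ≤ 2 * κ := Nat.mul_div_le _ _
      have b2 : κ < m * (κ / m) + m := by
        have := Nat.div_add_mod κ m
        have := Nat.mod_lt κ hm0
        omega
      have b3 : m * (2 * κ / m - κ / m) + m * (κ / m) = m * (2 * κ / m) := by
        rw [← mul_add]
        congr 1
        omega
      have b4 : m * l i0 < 2 * B ^ (5 * J) :=
        (hl2 i0).2.trans_le (Nat.mul_le_mul_left 2 (hX i0))
      rw [mul_add]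
      omega
    calc 2 * m * (univ.filter (fun b : Fin e → Fin M =>
        Ev e g M a0 α (fun i => (b i : ℕ)) l (κ / m) (2 * κ / m - κ / m))).card
        ≤ 2 * m * (((2 * κ / m - κ / m) + l i0) * M ^ (e - 1)) := Nat.mul_le_mul_left _ h1
      _ = 2 * (m * ((2 * κ / m - κ / m) + l i0)) * M ^ (e - 1) := by ring
      _ ≤ 2 * (2 * κ) * M ^ (e - 1) := by gcongr
      _ = 4 * κ * M ^ (e - 1) := by ring
  have htot : ∑ b : Fin e → Fin M, ((Lset e g B α j ×ˢ Lset e g B α j).filter (fun z =>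
      z.1 ≠ z.2 ∧ Par e z.1 z.2 ∧ EvC e g M a0 B α (fun i => (b i : ℕ)) t j z.1 ∧
      EvC e g M a0 B α (fun i => (b i : ℕ)) t j z.2)).card ≤
      4 * κ * M ^ (e - 1) * ∑ m ∈ Ico 2 (2 * B ^ (5 * J)), (PARC.Nset e g B J α j m).card := by
    refine (Finset.sum_le_sum fun b _ => key b).trans ?_
    rw [Finset.sum_comm, Finset.mul_sum]
    refine Finset.sum_le_sum fun m hm => ?_
    rw [← Finset.mul_sum, hexch m, Finset.mul_sum]
    refine (Finset.sum_le_sum fun l hl => hone m hm l hl).trans ?_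
    rw [Finset.sum_const, smul_eq_mul, mul_comm]
  -- multiply by `g`
  have hfin : g * (B ^ t * ∑ b : Fin e → Fin M, ((Lset e g B α j ×ˢ Lset e g B α j).filter (fun z =>
      z.1 ≠ z.2 ∧ Par e z.1 z.2 ∧ EvC e g M a0 B α (fun i => (b i : ℕ)) t j z.1 ∧
      EvC e g M a0 B α (fun i => (b i : ℕ)) t j z.2)).card) ≤ g * (4 * 3 ^ (e + 1) * M ^ e) := by
    have hpr : ∏ i, B ^ (j i) = B ^ (∑ i, j i) := Finset.prod_pow_eq_pow_sum _ _ _
    have hMe : M ^ e = M ^ (e - 1) * M := by
      rw [← pow_succ]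
      congr 1
      omega
    calc g * (B ^ t * ∑ b : Fin e → Fin M, ((Lset e g B α j ×ˢ Lset e g B α j).filter (fun z =>
        z.1 ≠ z.2 ∧ Par e z.1 z.2 ∧ EvC e g M a0 B α (fun i => (b i : ℕ)) t j z.1 ∧
        EvC e g M a0 B α (fun i => (b i : ℕ)) t j z.2)).card)
        ≤ g * (B ^ t * (4 * κ * M ^ (e - 1) *
          ∑ m ∈ Ico 2 (2 * B ^ (5 * J)), (PARC.Nset e g B J α j m).card)) := by gcongr
      _ = 4 * κ * M ^ (e - 1) * B ^ t *
          (g * ∑ m ∈ Ico 2 (2 * B ^ (5 * J)), (PARC.Nset e g B J α j m).card) := by ring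
      _ ≤ 4 * κ * M ^ (e - 1) * B ^ t * (3 ^ (e + 1) * ∏ i, B ^ (j i)) :=
          Nat.mul_le_mul_left _ hN
      _ = 4 * 3 ^ (e + 1) * M ^ (e - 1) * (κ * B ^ (t + ∑ i, j i)) := by
          rw [hpr, pow_add]
          ring
      _ ≤ 4 * 3 ^ (e + 1) * M ^ (e - 1) * (g * M) := Nat.mul_le_mul_left _ k1
      _ = g * (4 * 3 ^ (e + 1) * M ^ e) := by
          rw [hMe]
          ring
  exact Nat.le_of_mul_le_mul_left hfin hg

end Pool.Agent.H484.AL
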